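import Pool.Agent.R626.CohC

/-!
# Cohesive powers of field extensions with unbounded degrees are transcendental

For every computable field extension `K / F` with unbounded degrees there is a computable sequence
of elements of `K` whose degrees tend to infinity; its class in the cohesive power of `K` is
transcendental over the cohesive power of `F`.
-/

set_option autoImplicit false

namespace Pool.Agent.Results.MP_8df50c_lc.UnboundedTranscendental

open Filter Pool.Agent.R626.Coh

/-- Let `C` be a cohesive set and `K / F` a computable field extension such that the degrees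
`[F(α) : F]`, `α ∈ K`, are unbounded. Then the extension of cohesive powers is transcendental. -/
theorem result (C : Set ℕ) (hC : Cohesive C) (F K : Set ℕ) [Field F] [Field K] [Algebra F K]
    [ComputableField F] [ComputableField K] [ComputableExtension F K]
    (hun : ∀ n : ℕ, ∃ a : K, (n : Cardinal) < Module.rank F (IntermediateField.adjoin F {a})) :
    TranscendentalExt (powerMap C F K) := by
  classical
  obtain ⟨α, hα1, hα2⟩ := exists_seq (F := F) (K := K) fun n => by
    obtain ⟨a, ha⟩ := hun n
    exact ⟨a, not_degLe_of_rank ha⟩
  have hmem : (α : Germ (ae C) K) ∈ CohesivePower C K :=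
    ⟨α, rfl, fun i => Part.some (α i : ℕ), Computable.partrec hα1,
      Eventually.of_forall fun i => Part.mem_some _⟩
  refine ⟨⟨(α : Germ (ae C) K), hmem⟩, fun p hp h0 => ?_⟩
  -- representatives of the coefficients
  have hrep : ∀ j, ∃ f : ℕ → F, (f : Germ (ae C) F) = (p.coeff j).1 := fun j => by
    obtain ⟨f, hf, -⟩ := (p.coeff j).2
    exact ⟨f, hf⟩
  choose f hf using hrep
  set n := p.natDegree
  -- the equation, pointwise
  have heq : ∀ᶠ i in ae C, ∑ j ∈ Finset.range (n + 1), algebraMap F K (f j i) * α i ^ j = 0 := by
    rw [Polynomial.eval₂_eq_sum_range] at h0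
    let sub : Power C K →+* Germ (ae C) K := (CohesivePower C K).subtype
    have h1 := congr_arg sub h0
    rw [map_sum, map_zero] at h1
    simp only [map_mul, map_pow] at h1
    change ∑ j ∈ Finset.range (n + 1), (powerMap C F K (p.coeff j)).1 *
      (α : Germ (ae C) K) ^ j = 0 at h1
    have h2 : ∀ m : ℕ, ∑ j ∈ Finset.range m,
        (powerMap C F K (p.coeff j)).1 *
          (α : Germ (ae C) K) ^ j =
        ((fun i => ∑ j ∈ Finset.range m, algebraMap F K (f j i) * α i ^ j : ℕ → K) :
          Germ (ae C) K) := by
      intro m
      induction m with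
      | zero => rfl
      | succ m ih =>
        rw [Finset.sum_range_succ, ih]
        have h3 : (powerMap C F K (p.coeff m)).1 =
            ((fun i => algebraMap F K (f m i) : ℕ → K) : Germ (ae C) K) := by
          change Germ.map (algebraMap F K) (p.coeff m).1 = _
          rw [← hf m]
          rfl
        rw [h3]
        have h4 : ((fun i => ∑ j ∈ Finset.range (m + 1), algebraMap F K (f j i) * α i ^ j :
            ℕ → K)) = (fun i => ∑ j ∈ Finset.range m, algebraMap F K (f j i) * α i ^ j) +
            (fun i => algebraMap F K (f m i)) * α ^ m := by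
          funext i
          rw [Finset.sum_range_succ]
          rfl
        rw [h4]
        rfl
    rw [h2] at h1
    have h5 : ((fun i => ∑ j ∈ Finset.range (n + 1), algebraMap F K (f j i) * α i ^ j : ℕ → K) :
          Germ (ae C) K) = ((fun _ => 0 : ℕ → K) : Germ (ae C) K) := h1
    exact Germ.coe_eq.1 h5
  -- the leading coefficient does not vanish almost everywhere
  have hlead : ¬ ∀ᶠ i in ae C, f n i = 0 := by
    intro hcon
    have h1 : p.coeff n ≠ 0 := by
      rw [Polynomial.coeff_natDegree]
      exact Polynomial.leadingCoeff_ne_zero.2 hp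
    apply h1
    apply Subtype.ext
    rw [← hf n]
    exact Germ.coe_eq.2 hcon
  -- almost all degrees are large
  have hdeg : ∀ᶠ i in ae C, ¬ DegLe F n (α i) := by
    have h1 := hα2 n
    rw [← Nat.cofinite_eq_atTop] at h1
    exact h1.filter_mono inf_le_left
  apply hlead
  filter_upwards [heq, hdeg] with i h1 h2
  by_contra h3
  apply h2
  refine ⟨∑ j ∈ Finset.range (n + 1), Polynomial.C (f j i) * Polynomial.X ^ j, ?_, ?_, ?_⟩
  · intro h4
    have h5 := congr_arg (fun P : Polynomial F => P.coeff n) h4
    simp only [Polynomial.finsetSum_coeff, Polynomial.coeff_C_mul, Polynomial.coeff_X_pow,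
      Polynomial.coeff_zero] at h5
    rw [Finset.sum_eq_single n] at h5
    · simp at h5
      exact h3 h5
    · intro j _ hj
      simp [Ne.symm hj]
    · intro hcon
      exact absurd (Finset.self_mem_range_succ n) hcon
  · refine Polynomial.natDegree_sum_le_of_forall_le _ _ fun j hj => ?_
    have h6 : j ≤ n := by
      have := Finset.mem_range.1 hj
      omega
    exact (Polynomial.natDegree_C_mul_X_pow_le _ _).trans h6
  · rw [map_sum]
    rw [← h1]
    refine Finset.sum_congr rfl fun j _ => ?_
    simp

end Pool.Agent.Results.MP_8df50c_lc.UnboundedTranscendental
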